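import Pool.Agent.Helper47.FLG.Pde

/-!
# Project FLG, packet CUT: the static heat equation with a cut-off
-/

set_option autoImplicit false

open Finset

namespace Pool.Agent.Helper16.FLG

open Pool.Agent.Helper47.RFn Pool.Agent.Helper47.FLG

variable {n : ℕ} {T : ℝ} {F : FB n T}

/-- the exponential of an element of the algebra -/
theorem exists_exp (hF : F.Base) (g : F.B) : ∃ ps : F.B, (∀ z t, F.ev z t ps = Real.exp (F.ev z t g)) ∧
    (∀ a, F.H a ps = ps * F.H a g) ∧ F.D ps = ps * F.D g := by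
  have hφ : ContDiffOn ℝ ((⊤ : ℕ∞) : WithTop ℕ∞) Real.exp Set.univ := Real.contDiff_exp.contDiffOn
  obtain ⟨ps, hps⟩ := hF.comp Real.exp Set.univ isOpen_univ hφ g (fun _ _ => Set.mem_univ _)
  have hch := hF.chain Real.exp Set.univ isOpen_univ hφ g ps (fun _ _ => Set.mem_univ _) hps
  refine ⟨ps, hps, ?_, ?_⟩
  · intro a
    apply hF.ext
    intro z t
    rw [(hch z t).1 a, Real.deriv_exp, map_mul, hps]
  · apply hF.ext
    intro z t
    rw [(hch z t).2.2, Real.deriv_exp, map_mul, hps]

theorem Hop_exp {ps g : F.B} (hH : ∀ a, F.H a ps = ps * F.H a g) (hD : F.D ps = ps * F.D g) :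
    F.Hop ps = ps * (F.Hop g - F.gg g g) := by
  have h1 : ∀ a, F.H a (F.H a ps) = ps * F.H a (F.H a g) + ps * (F.H a g * F.H a g) := by
    intro a
    rw [hH a, Derivation.leibniz, hH a, smul_eq_mul, smul_eq_mul]
    ring
  unfold FB.Hop FB.Lap FB.gg
  simp only [h1, hD, Finset.sum_add_distrib, ← Finset.mul_sum]
  ring

theorem goal_CUT (hMP1 : Goal_MP1) (hBOC : Goal_BOC) (hPRD : Goal_PRD) : G_CUT := by
  intro n _hn T F hF hS _hR k c0 hk u w hu _hw hDu hDw hgrad hcut z0 t0 ht0
  have hB := hF.toBase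
  have hprd := (hPRD n T F).1
  have hboc := hBOC n T F hF u hu
  have hone : F.Hop (1 : F.B) = 0 := by
    have h := ((hprd 0 0).2.2.2.1 1).2
    rwa [map_one] at h
  have htt : F.Hop F.tt = 1 := by
    unfold FB.Hop FB.Lap
    rw [hB.tt_D]
    have : ∀ a, F.H a (F.H a F.tt) = 0 := fun a => by rw [hB.tt_H, map_zero]
    simp only [this, sum_const_zero, sub_zero]
  have hHw : F.Hop w = 0 := by
    unfold FB.Hop
    rw [hDw, sub_self]
  -- the function `exp (-2kt)`
  obtain ⟨e, he, heH, heD⟩ := exists_exp hB ((-(2 * k)) • F.tt)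
  have hHe : F.Hop e = (-(2 * k)) • e := by
    rw [Hop_exp heH heD, ((hprd F.tt 0).2.2.2.1 (-(2 * k))).1, htt]
    have : F.gg ((-(2 * k)) • F.tt) ((-(2 * k)) • F.tt) = 0 := by
      unfold FB.gg
      simp only [Derivation.map_smul, hB.tt_H, smul_zero, mul_zero, sum_const_zero]
    rw [this, sub_zero, mul_smul_comm, mul_one]
  -- the function `psi`
  obtain ⟨ps, hps, hpsH, hpsD⟩ := exists_exp hB
    (Real.sqrt k • w + k • F.tt - algebraMap ℝ F.B (Real.sqrt k * c0))
  have hsk : Real.sqrt k * Real.sqrt k = k := Real.mul_self_sqrt hk.le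
  have hHps : F.Hop ps = ps * (k • 1 - k • F.gg w w) := by
    rw [Hop_exp hpsH hpsD, (hprd _ _).2.2.1, (hprd _ _).2.1, ((hprd w 0).2.2.2.1 _).1,
      ((hprd F.tt 0).2.2.2.1 _).1, ((hprd 0 0).2.2.2.1 _).2, hHw, htt, smul_zero, zero_add, sub_zero]
    congr 2
    unfold FB.gg
    rw [Finset.smul_sum]
    refine Finset.sum_congr rfl fun a _ => ?_
    rw [map_sub, map_add, Derivation.map_smul, Derivation.map_smul, hB.tt_H, smul_zero, add_zero,
      Derivation.map_algebraMap, sub_zero, smul_mul_smul_comm, hsk]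
  have hpev : ∀ z (t : TI T), F.ev z t ps = Real.exp (Real.sqrt k * (F.ev z t w - c0) + k * t) := by
    intro z t
    rw [hps]
    congr 1
    rw [map_sub, map_add, map_smul, map_smul, AlgHom.commutes, hB.tt_ev, smul_eq_mul, smul_eq_mul,
      Algebra.algebraMap_self_apply]
    ring
  have heev : ∀ z (t : TI T), F.ev z t e = Real.exp (-(2 * k * t)) := by
    intro z t
    rw [he, map_smul, hB.tt_ev, smul_eq_mul]
    congr 1
    ring
  -- the Bochner formula
  have hHa : ∀ a, F.Hop (F.H a u) = -∑ b, F.Ric a b * F.H b u := by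
    intro a
    have h1 := hboc.1 a
    have h2 := (hboc.2.2.2 hS).1 a
    unfold FB.Hop
    rw [h1, h2, hDu]
    ring
  have hHg : F.Hop (F.gg u u) =
      ∑ a, ((2 : ℝ) • (F.H a u * (-∑ b, F.Ric a b * F.H b u)) - (2 : ℝ) • F.gg (F.H a u) (F.H a u)) := by
    have hsum : ∀ (s : Finset (Ix n)) (f : Ix n → F.B), F.Hop (∑ a ∈ s, f a) = ∑ a ∈ s, F.Hop (f a) := by
      intro s f
      classical
      induction s using Finset.induction_on with
      | empty =>
        simp only [Finset.sum_empty]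
        have h := ((hprd 0 0).2.2.2.1 0).2
        rwa [map_zero] at h
      | insert a s ha ih => rw [Finset.sum_insert ha, Finset.sum_insert ha, (hprd _ _).2.1, ih]
    have : F.gg u u = ∑ a, F.H a u ^ 2 := by
      unfold FB.gg
      refine Finset.sum_congr rfl fun a _ => ?_
      ring
    rw [this, hsum]
    refine Finset.sum_congr rfl fun a _ => ?_
    rw [(hprd (F.H a u) 0).2.2.2.2, hHa]
  have hgg : ∀ z (t : TI T), F.ev z t (F.gg u u) = nrm (fun a => F.ev z t (F.H a u)) := by
    intro z t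
    unfold FB.gg nrm
    rw [map_sum]
    refine Finset.sum_congr rfl fun a _ => ?_
    rw [map_mul]
    ring
  have hdot : ∀ z (t : TI T), dot (fun a => F.ev z t (F.H a u)) (F.nv z t) = 0 := by
    intro z t
    have h := congrArg (F.ev z t) (hB.nuH u)
    rw [map_zero, map_sum] at h
    unfold dot FB.nv
    rw [← h]
    refine Finset.sum_congr rfl fun a _ => ?_
    rw [map_mul]
    ring
  have hboch : ∀ z (t : TI T), RcGe F z t k →
      F.ev z t (F.Hop (F.gg u u)) ≤ -(2 * k * F.ev z t (F.gg u u)) := by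
    intro z t hR
    have h1 := hR (fun a => F.ev z t (F.H a u))
    rw [hdot, ← hgg] at h1
    rw [hHg, map_sum]
    have h2 : ∀ a, F.ev z t ((2 : ℝ) • (F.H a u * (-∑ b, F.Ric a b * F.H b u))
        - (2 : ℝ) • F.gg (F.H a u) (F.H a u)) ≤
        -(2 * ∑ b, F.ev z t (F.Ric a b) * F.ev z t (F.H a u) * F.ev z t (F.H b u)) := by
      intro a
      have h3 : 0 ≤ F.ev z t (F.gg (F.H a u) (F.H a u)) := by
        unfold FB.gg
        rw [map_sum]
        refine Finset.sum_nonneg fun b _ => ?_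
        rw [map_mul]
        exact mul_self_nonneg _
      rw [map_sub, map_smul, map_smul, map_mul, map_neg, map_sum, smul_eq_mul, smul_eq_mul]
      have h4 : F.ev z t (F.H a u) * (-∑ b, F.ev z t (F.Ric a b * F.H b u)) =
          -∑ b, F.ev z t (F.Ric a b) * F.ev z t (F.H a u) * F.ev z t (F.H b u) := by
        rw [mul_neg, Finset.mul_sum]
        congr 1
        refine Finset.sum_congr rfl fun b _ => ?_
        rw [map_mul]
        ring
      rw [h4]
      linarith
    have h5 := Finset.sum_le_sum (s := (Finset.univ : Finset (Ix n))) fun a _ => h2 a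
    refine h5.trans ?_
    rw [Finset.sum_neg_distrib, ← Finset.mul_sum]
    have h6 : k * F.ev z t (F.gg u u) ≤
        ∑ a, ∑ b, F.ev z t (F.Ric a b) * F.ev z t (F.H a u) * F.ev z t (F.H b u) := by
      have h7 : (0 : ℝ) ^ 2 = 0 := by norm_num
      rw [h7, sub_zero] at h1
      exact h1
    linarith
  -- the maximum principle
  have hfev : ∀ z (t : TI T), F.ev z t (e + ps - F.gg u u) =
      Real.exp (-(2 * k * t)) + Real.exp (Real.sqrt k * (F.ev z t w - c0) + k * t) - F.ev z t (F.gg u u) := by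
    intro z t
    rw [map_sub, map_add, heev, hpev]
  have hmain := hMP1 n T F hB (e + ps - F.gg u u) 0 t0 0 1 le_rfl t0.2.2 le_rfl one_pos ?_ ?_ z0 t0 t0.2.1
    le_rfl
  · rw [hfev] at hmain
    linarith
  · intro ε hε
    refine ⟨ε / (2 * k), by positivity, fun z t _ ht => ?_⟩
    rw [zero_add, lt_div_iff₀ (by positivity)] at ht
    rw [hfev]
    have h1 := Real.add_one_le_exp (-(2 * k * (t : ℝ)))
    have h2 := Real.exp_pos (Real.sqrt k * (F.ev z t w - c0) + k * t)
    have h3 := (hgrad z t).1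
    linarith
  · intro z t ht1 ht2 _ _ hneg
    rw [zero_mul]
    rw [hfev] at hneg
    have hkt : k * (t : ℝ) ≤ 1 := (mul_le_mul_of_nonneg_left ht2 hk.le).trans ht0
    have h1 := Real.exp_pos (-(2 * k * (t : ℝ)))
    have h2 := Real.exp_pos (Real.sqrt k * (F.ev z t w - c0) + k * t)
    obtain ⟨h3, h4⟩ := hgrad z t
    have h5 : Real.exp (Real.sqrt k * (F.ev z t w - c0) + k * t) < 1 := by linarith
    rw [Real.exp_lt_one_iff] at h5
    have h6 : 0 < k * (t : ℝ) := mul_pos hk ht1
    have hw : F.ev z t w ≤ c0 := by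
      by_contra hcon
      rw [not_le] at hcon
      have : 0 ≤ Real.sqrt k * (F.ev z t w - c0) := mul_nonneg (Real.sqrt_nonneg k) (by linarith)
      linarith
    have h7 := hboch z t (hcut z t hkt hw)
    rw [(hprd _ _).2.2.1, (hprd _ _).2.1, hHe, hHps, map_sub, map_add, map_smul, map_mul, map_sub, map_smul,
      map_smul, map_one, heev, hpev, smul_eq_mul, smul_eq_mul, smul_eq_mul, mul_one]
    have h8 : 0 ≤ Real.exp (Real.sqrt k * (F.ev z t w - c0) + k * t) * (k - k * F.ev z t (F.gg w w)) := by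
      refine mul_nonneg h2.le ?_
      nlinarith
    nlinarith

/-- packet CUT -/
theorem g_CUT (hMP1 : Goal_MP1) (hBOC : Goal_BOC) (hPRD : Goal_PRD) (_hVIN : Goal_VIN) (_hBIA : Goal_BIA) :
    G_CUT := goal_CUT hMP1 hBOC hPRD

end Pool.Agent.Helper16.FLG
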